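import Pool.Agent.Helper12.RR.Main

/-!
# MP_a41896_nt: Vojta's inequality at all rational points, in arbitrary rank

Let `K` be a number field and `Y = ∏_t W_t ^ (n_t)` a product of powers of elliptic curves over `K`.
Let `V_j = {z ∈ Y : A_j z_(τ j) = s_j}` (`j ∈ ι`, finitely many), where `A_j` is an integer matrix with
`m_j` rows and `n_(τ j)` columns and `s_j` is a `K`-point of `W_(τ j) ^ (m_j)`; if the rows of `A_j` are
linearly independent, `V_j` has codimension `m_j` (points: `A_j = 1`; diagonals; translates of abelian
subvarieties). Let `X → Y` be proper and birational, `X` smooth, and an isomorphism outside `⋃ V_j`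
(more generally `X → Y × B → Y` with `-(K_B + D_B)` of nonnegative height), and let `D` be `∅` or a
divisor over `⋃ V_j`.

* `excHeight (linearForms A_j s_j z)` is the height of `z` with respect to `V_j`; so the height of a
  point of `X` with respect to `K_X(D)` is bounded by a multiple of the sum of these heights, up to a
  constant, off the centres (hypothesis `hcan`);
* the truncated counting function is nonnegative (hypothesis `hcount`);
* a height `hH` with respect to a big divisor of `X` is bounded below by a positive multiple of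
  `baseHeight`, up to a constant, outside a proper closed subset (hypothesis `hbig`; take for `P` the
  set of the points of `X` outside it, and for `z` the map to `Y`).

The theorem says: if the coordinates of `z_t` span a group of rank `≤ r_t` and `r_(τ j) < m_j` for all
`j`, then Vojta's inequality `hN ≥ hK - δ hH - C` holds, without any exceptions outside a proper closed
subset: the union of the finitely many subsets `{z : k ⬝ (A_j z - s_j) = 0}`, `k ≠ 0`, `|k| ≤ M`. The
constants do not depend on the group. If `r_t` is the rank of `W_t(K)`, these are all `K`-points.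
-/

namespace Pool.Agent.Results.MP_a41896_nt.ArbitraryRank

open WeierstrassCurve NumberField Height

noncomputable section

variable {K : Type} [Field K]

/-- The `x`-coordinate of a `K`-point of an elliptic curve; `0` at the point at infinity. -/
def xCoord {W : Affine K} : W.Point → K
  | .zero => 0
  | .some x _ _ => x

/-- The sum of `f` over all places of the number field `K`, the archimedean ones being counted with
their local degrees. -/
def sumPlaces [NumberField K] (f : AbsoluteValue K ℝ → ℝ) : ℝ :=
  ∑ v : InfinitePlace K, (v.mult : ℝ) * f v.val + ∑ᶠ v : FinitePlace K, f v.val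

/-- `½ Σ_v min_i log⁺|x(y_i)|_v`: the height of `y ∈ W ^ m` with respect to the origin. -/
def excHeight [NumberField K] {m : ℕ} {W : Affine K} (y : Fin m → W.Point) : ℝ :=
  sumPlaces (fun v => ⨅ i, Real.posLog (v (xCoord (y i)))) / 2

/-- `Σ_i h(x(z_i))`: an ample height on `W ^ n`. -/
def baseHeight [NumberField K] {n : ℕ} {W : Affine K} (z : Fin n → W.Point) : ℝ :=
  ∑ i, logHeight₁ (xCoord (z i))

/-- The vector `A z - s`. -/
def linearForms [DecidableEq K] {W : Affine K} {m n : ℕ} (A : Matrix (Fin m) (Fin n) ℤ)
    (s : Fin m → W.Point) (z : Fin n → W.Point) : Fin m → W.Point :=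
  fun i => ∑ l, A i l • z l - s i

theorem xCoord_eq {W : Affine K} (P : W.Point) : xCoord P = Pool.Agent.Helper29.BL.xc P := by
  cases P <;> rfl

theorem sumPlaces_eq [NumberField K] (f : AbsoluteValue K ℝ → ℝ) :
    sumPlaces f = Pool.Agent.Helper29.BL.PS f := by
  unfold sumPlaces Pool.Agent.Helper29.BL.PS
  rw [NumberField.sum_archAbsVal_eq, NumberField.sum_nonarchAbsVal_eq]
  simp

theorem excHeight_eq [NumberField K] {m : ℕ} {W : Affine K} (y : Fin m → W.Point) :
    excHeight y = Pool.Agent.Helper12.RR.exc y := by
  unfold excHeight Pool.Agent.Helper12.RR.exc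
  rw [sumPlaces_eq]
  simp only [xCoord_eq]

theorem baseHeight_eq [NumberField K] {n : ℕ} {W : Affine K} (z : Fin n → W.Point) :
    baseHeight z = ∑ i, Pool.Agent.Helper29.BL.hx (z i) := by
  unfold baseHeight Pool.Agent.Helper29.BL.hx
  simp only [xCoord_eq]

/-- **Vojta's inequality at all points of rank less than the codimension of the centres.** -/
theorem result (K : Type) [Field K] [NumberField K] [DecidableEq K] (T : Type) [Fintype T]
    (W : T → Affine K) [∀ t, (W t).IsElliptic] (n r : T → ℕ) (ι : Type) [Fintype ι] (τ : ι → T)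
    (m : ι → ℕ) (hm : ∀ j, r (τ j) < m j) (A : ∀ j, Matrix (Fin (m j)) (Fin (n (τ j))) ℤ)
    (s : ∀ j, Fin (m j) → (W (τ j)).Point) (c₀ C₀ δ : ℝ) (hc₀ : 0 < c₀) (hδ : 0 < δ) :
    ∃ (M : ℕ) (C : ℝ), ∀ (P : Type) (z : P → ∀ t, Fin (n t) → (W t).Point) (hK hN hH : P → ℝ)
      (_hcan : ∀ x, (∀ j i, linearForms (A j) (s j) (z x (τ j)) i ≠ 0) →
        hK x ≤ C₀ * ∑ j, excHeight (linearForms (A j) (s j) (z x (τ j))) + C₀)
      (_hcount : ∀ x, 0 ≤ hN x)
      (_hbig : ∀ x, c₀ * ∑ t, baseHeight (z x t) - C₀ ≤ hH x),
      ∀ x, (∀ t, Module.rank ℤ (AddSubgroup.closure (Set.range (z x t))) ≤ r t) →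
        (∀ j, ∀ k : Fin (m j) → ℤ, k ≠ 0 → (∀ i, |k i| ≤ M) →
          ∑ i, k i • linearForms (A j) (s j) (z x (τ j)) i ≠ 0) →
        hK x - δ * hH x - C ≤ hN x := by
  obtain ⟨M, C, h⟩ := Pool.Agent.Helper12.RR.rr K T W n r ι τ m hm A s c₀ C₀ δ hc₀ hδ
  refine ⟨M, C, fun P z hK hN hH hcan hcount hbig => h P z hK hN hH (fun x hx => ?_) hcount
    fun x => ?_⟩
  · have h1 := hcan x hx
    simp only [excHeight_eq] at h1
    exact h1
  · have h1 := hbig x
    simp only [baseHeight_eq] at h1
    exact h1

end

end Pool.Agent.Results.MP_a41896_nt.ArbitraryRank
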