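import Pool.Agent.Helper29.BL.QSN
import Pool.Agent.Helper29.BL.PS

/-!
# Project RR (MP_a41896_nt): Vojta's inequality (`D = 0`) in arbitrary rank, statement

`K` number field; `Y = ∏_t W_t ^ (n_t)`, `W_t` elliptic curves over `K`; centres: the subvarieties
`V_j = {z : A_j z_(τ j) = s_j}`, `A_j` an integer `m_j × n_(τ j)` matrix, `s_j` a `K`-point, `j ∈ ι`.

THEOREM RR. Suppose `r_(τ j) < m_j` for all `j` (the codimension of `V_j` if the rows of `A_j` are
independent). For every `δ > 0` there are `M`, `C` with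
`∑_j excHeight (A_j z - s_j) ≤ δ * baseHeight z + C` for all `K`-points `z` of `Y` such that the
coordinates of `z_t` span a group of rank at most `r_t` (all `t`), outside the finitely many proper closed
subsets `{z : k . (A_j z - s_j) = 0}`, `k ∈ ℤ ^ (m_j)`, `0 < |k| ≤ M`.
If `r_t = rank W_t(K)` these are all `K`-points.

Proof. One centre, `y = A z - s`, `m > r`.
(1) Canonical height `H` on `W(K)` (CAN, proved in `BL`), `|H - hx| ≤ c₀`.
(2) Pigeonhole (PG): for every `ε > 0` there is `M = M(m, r, ε)` such that for every quadratic `H ≥ 0`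
 on an abelian group and all `x_1, .., x_m`, any `r + 1` of which have a nontrivial integer relation
 (modulo `H = 0`), there is `k ∈ ℤ ^ m`, `0 < |k| ≤ M`, with `H(∑ k_i x_i) ≤ ε max H(x_i)`.
 Induction on `r`.  `r = 0`: `H(x_i) = 0`.  Step: `x_0` with `H(x_0)` maximal, `> 0`,
 `H'(x) = H(x) - ⟨x, x_0⟩² / H(x_0)` (quadratic, `≥ 0`, `H'(x_0) = 0`); among the other `m - 1`
 elements any `r` have a relation modulo `H' = 0`; take `κ` for `H'`, `ε' = ε / (2 L²)`,
 `ξ = ⟨κ . x, x_0⟩ / H(x_0)`, and (Dirichlet) `1 ≤ q ≤ L`, `|q ξ - a| ≤ 1 / (L + 1)`, `a ∈ ℤ`; then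
 `H(q κ . x - a x_0) = q² H'(κ . x) + (q ξ - a)² H(x_0) ≤ (ε / 2 + 1 / (L + 1)²) max H`.
(3) Local inequality: if `y_i ≠ 0` and `k . y ≠ 0` then
 `min_i log⁺|x(y_i)|_v ≤ log⁺|x(k . y)|_v + N_k log β_v` for all `v`, `β_v = cst v C * bet W v ^ n` of TRI
 (`min(M(x(P)), M(x(Q))) ≤ β_v M(x(P - Q))`, proved in `BL`), `N_k = ∑ (|k_i| + 1)`: all partial sums
 `R` have `R = 0` or `M(x(R)) ≥ β_v ^ (-N) min_i M(x(y_i))`.
(4) Apply (2) to `x_i = ∑_l A_il z_l`: `H(x_i) ≤ c_A ∑ H(z_l)`, and `k . y = k . x - k . s`, so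
 `H(k . y) ≤ 2 H(k . x) + 2 H(k . s) ≤ 2 ε c_A ∑ H(z_l) + C`.  With (3), summed over all places:
 `excHeight y ≤ (1/2) hx(k . y) + C ≤ ε c_A baseHeight z + C'` if `k . y ≠ 0`.  (If some `y_i = 0` then
 `z` is in one of the excluded subsets, `k = e_i`.)
The hypothesis on `hK` says that the canonical height of `X` (`X → Y` proper birational, an isomorphism
outside `⋃ V_j`, or composed with a fibration) is at most a multiple of the height of the centre;
`hH` is a big height.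
-/

namespace Pool.Agent.Helper12.RR

open WeierstrassCurve Height Height.AdmissibleAbsValues Pool.Agent.Helper29.BL

noncomputable section

variable {K : Type} [Field K]

/-- The vector `A z - s`. -/
def lin [DecidableEq K] {W : Affine K} {m n : ℕ} (A : Matrix (Fin m) (Fin n) ℤ)
    (s : Fin m → W.Point) (z : Fin n → W.Point) (i : Fin m) : W.Point := ∑ l, A i l • z l - s i

/-- `½ Σ_v min_i log⁺|x(y_i)|_v` -/
def exc [NumberField K] {m : ℕ} {W : Affine K} (y : Fin m → W.Point) : ℝ :=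
  PS (fun v => ⨅ i, Real.posLog (v (xc (y i)))) / 2

/-- The theorem. -/
def G_RR : Prop := ∀ (K : Type) [Field K] [NumberField K] [DecidableEq K] (T : Type) [Fintype T]
  (W : T → Affine K) [∀ t, (W t).IsElliptic] (n r : T → ℕ) (ι : Type) [Fintype ι] (τ : ι → T)
  (m : ι → ℕ), (∀ j, r (τ j) < m j) →
  ∀ (A : ∀ j, Matrix (Fin (m j)) (Fin (n (τ j))) ℤ) (s : ∀ j, Fin (m j) → (W (τ j)).Point)
  (c₀ C₀ δ : ℝ), 0 < c₀ → 0 < δ →
  ∃ (M : ℕ) (C : ℝ), ∀ (X : Type) (z : X → ∀ t, Fin (n t) → (W t).Point) (hK hN hH : X → ℝ),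
    (∀ x, (∀ j i, lin (A j) (s j) (z x (τ j)) i ≠ 0) →
      hK x ≤ C₀ * ∑ j, exc (lin (A j) (s j) (z x (τ j))) + C₀) →
    (∀ x, 0 ≤ hN x) → (∀ x, c₀ * ∑ t, ∑ i, hx (z x t i) - C₀ ≤ hH x) →
    ∀ x, (∀ t, Module.rank ℤ (AddSubgroup.closure (Set.range (z x t))) ≤ r t) →
      (∀ j, ∀ k : Fin (m j) → ℤ, k ≠ 0 → (∀ i, |k i| ≤ M) →
        ∑ i, k i • lin (A j) (s j) (z x (τ j)) i ≠ 0) →
      hK x - δ * hH x - C ≤ hN x

end

end Pool.Agent.Helper12.RR
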