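import Pool.Agent.Helper12.RR.Goal
import Pool.Agent.Helper55.BL.TRI
import Pool.Agent.Helper29.BL.ADD

/-!
# Project RR: the local inequality for integer combinations
-/

set_option autoImplicit false

namespace Pool.Agent.Helper12.RR

open WeierstrassCurve Height Height.AdmissibleAbsValues Pool.Agent.Helper29.BL

noncomputable section

theorem tri : TRI := Pool.Agent.Helper55.BL.tri_of add dbl

variable {K : Type} [Field K] [DecidableEq K] {W : Affine K}

/-- `R = 0` or `x(R)` is large -/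
def Bd (v : AbsoluteValue K ℝ) (μ : ℝ) (R : W.Point) : Prop := R = 0 ∨ μ ≤ Mv v (xc R)

lemma Bd.mono {v : AbsoluteValue K ℝ} {μ μ' : ℝ} {R : W.Point} (h : Bd v μ R) (hm : μ' ≤ μ) :
    Bd v μ' R := h.imp id (fun h1 => hm.trans h1)

lemma xc_neg' (P : W.Point) : xc (-P) = xc P := (xeq K W).2 P

lemma Bd.neg {v : AbsoluteValue K ℝ} {μ : ℝ} {R : W.Point} (h : Bd v μ R) : Bd v μ (-R) := by
  rcases h with h | h
  · left
    rw [h, neg_zero]
  · right
    rwa [xc_neg']

/-- the constant of the local inequality -/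
structure TriC (v : AbsoluteValue K ℝ) (W : Affine K) (β : ℝ) : Prop where
  one_le : 1 ≤ β
  tri : ∀ P Q : W.Point, P ≠ 0 → Q ≠ 0 → P ≠ Q →
    min (Mv v (xc P)) (Mv v (xc Q)) ≤ β * Mv v (xc (P - Q))

lemma Bd.add {v : AbsoluteValue K ℝ} {β μ : ℝ} (hβ : TriC v W β) (hμ : 0 < μ) {P Q : W.Point}
    (hP : Bd v μ P) (hQ : Bd v μ Q) : Bd v (μ / β) (P + Q) := by
  have hβ0 : 0 < β := lt_of_lt_of_le one_pos hβ.one_le
  have hle : μ / β ≤ μ := div_le_self hμ.le hβ.one_le
  rcases hP with rfl | hP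
  · rw [zero_add]
    exact hQ.mono hle
  · rcases hQ with rfl | hQ
    · rw [add_zero]
      exact Or.inr (hle.trans hP)
    · by_cases h0 : P + Q = 0
      · exact Or.inl h0
      · by_cases hP0 : P = 0
        · rw [hP0, zero_add]
          exact Or.inr (hle.trans hQ)
        · by_cases hQ0 : Q = 0
          · rw [hQ0, add_zero]
            exact Or.inr (hle.trans hP)
          · right
            have h1 := hβ.tri P (-Q) hP0 (neg_ne_zero.2 hQ0) (fun h => h0 (by rw [h]; simp))
            rw [xc_neg', sub_neg_eq_add] at h1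
            rw [div_le_iff₀ hβ0, mul_comm]
            exact (le_min hP hQ).trans h1

lemma Bd.nsmul {v : AbsoluteValue K ℝ} {β μ : ℝ} (hβ : TriC v W β) (hμ : 0 < μ) {P : W.Point}
    (hP : Bd v μ P) (n : ℕ) : Bd v (μ / β ^ n) (n • P) := by
  have hβ0 : 0 < β := lt_of_lt_of_le one_pos hβ.one_le
  induction n with
  | zero =>
    left
    rw [zero_smul]
  | succ n ih =>
    rw [succ_nsmul, pow_succ, ← div_div]
    refine Bd.add hβ (by positivity) ih (hP.mono ?_)
    exact div_le_self hμ.le (one_le_pow₀ hβ.one_le)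

lemma Bd.zsmul {v : AbsoluteValue K ℝ} {β μ : ℝ} (hβ : TriC v W β) (hμ : 0 < μ) {P : W.Point}
    (hP : Bd v μ P) (k : ℤ) : Bd v (μ / β ^ k.natAbs) (k • P) := by
  have h := hP.nsmul hβ hμ k.natAbs
  rcases Int.natAbs_eq k with h1 | h1
  · have h2 : k • P = k.natAbs • P := by
      conv_lhs => rw [h1]
      exact natCast_zsmul _ _
    rw [h2]
    exact h
  · have h2 : k • P = -(k.natAbs • P) := by
      conv_lhs => rw [h1]
      rw [neg_zsmul, natCast_zsmul]
    rw [h2]
    exact h.neg

lemma Bd.sum {v : AbsoluteValue K ℝ} {β μ : ℝ} (hβ : TriC v W β) (hμ : 0 < μ) {ι : Type}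
    [DecidableEq ι] (s : Finset ι) (y : ι → W.Point) (k : ι → ℤ) (hy : ∀ i ∈ s, Bd v μ (y i)) :
    Bd v (μ / β ^ (∑ i ∈ s, ((k i).natAbs + 1))) (∑ i ∈ s, k i • y i) := by
  have hβ0 : 0 < β := lt_of_lt_of_le one_pos hβ.one_le
  induction s using Finset.induction_on with
  | empty =>
    left
    simp
  | insert a s ha ih =>
    rw [Finset.sum_insert ha, Finset.sum_insert ha]
    have h1 := ih (fun i hi => hy i (Finset.mem_insert_of_mem hi))
    have h2 := (hy a (Finset.mem_insert_self a s)).zsmul hβ hμ (k a)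
    have h3 : μ / β ^ ((k a).natAbs + 1 + ∑ i ∈ s, ((k i).natAbs + 1)) =
        (μ / β ^ ((k a).natAbs + ∑ i ∈ s, ((k i).natAbs + 1))) / β := by
      rw [div_div, ← pow_succ]
      congr 2
      ring
    rw [h3]
    refine Bd.add hβ (by positivity) (h2.mono ?_) (h1.mono ?_)
    · apply div_le_div_of_nonneg_left hμ.le (by positivity)
      exact pow_le_pow_right₀ hβ.one_le (by omega)
    · apply div_le_div_of_nonneg_left hμ.le (by positivity)
      exact pow_le_pow_right₀ hβ.one_le (by omega)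

/-- The height of the origin of `W ^ m` at `y` is at most the height of `k . y`, up to a constant. -/
theorem exc_le (K : Type) [Field K] [NumberField K] [DecidableEq K] (W : Affine K) (m : ℕ)
    (hm : 0 < m) (k : Fin m → ℤ) : ∃ C : ℝ, ∀ y : Fin m → W.Point, (∀ i, y i ≠ 0) →
    ∑ i, k i • y i ≠ 0 → exc y ≤ hx (∑ i, k i • y i) / 2 + C := by
  obtain ⟨C, n, hC, hT⟩ := tri
  let N : ℕ := ∑ i, ((k i).natAbs + 1)
  refine ⟨N * (totalWeight K * Real.log C + n * PS (fun v => Real.log (bet W v))) / 2,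
    fun y hy hk => ?_⟩
  have : Nonempty (Fin m) := ⟨⟨0, hm⟩⟩
  have hloc : ∀ v : AbsoluteValue K ℝ, (⨅ i, Real.posLog (v (xc (y i)))) ≤
      N * (Real.log (cst v C) + n * Real.log (bet W v)) +
        Real.posLog (v (xc (∑ i, k i • y i))) := by
    intro v
    have hβ0 : 0 < cst v C * bet W v ^ n := mul_pos (cst_pos v hC) (pow_pos (bet_pos W v) n)
    have hβ : TriC v W (cst v C * bet W v ^ n) :=
      ⟨one_le_mul_of_one_le_of_one_le (one_le_cst v hC) (one_le_pow₀ (one_le_bet W v)),
        fun P Q hP hQ hPQ => hT K v W P Q hP hQ hPQ⟩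
    obtain ⟨i₀, hi₀⟩ := exists_eq_ciInf_of_finite (f := fun i => Mv v (xc (y i)))
    have hμ : 0 < Mv v (xc (y i₀)) := Mv_pos _ _
    have hbd : BddBelow (Set.range fun i => Mv v (xc (y i))) := (Set.finite_range _).bddBelow
    have h1 := Bd.sum hβ hμ Finset.univ y k (fun i _ => Or.inr (by
      change Mv v (xc (y i₀)) ≤ Mv v (xc (y i))
      change Mv v (xc (y i₀)) = _ at hi₀
      rw [hi₀]
      exact ciInf_le hbd i))
    rcases h1 with h1 | h1
    · exact absurd h1 hk
    · rw [div_le_iff₀ (pow_pos hβ0 _)] at h1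
      have h2 := Real.log_le_log hμ h1
      rw [Real.log_mul (Mv_pos _ _).ne' (pow_pos hβ0 _).ne', Real.log_pow,
        Real.log_mul (cst_pos v hC).ne' (pow_pos (bet_pos W v) n).ne', Real.log_pow, log_Mv,
        log_Mv] at h2
      have h3 : (⨅ i, Real.posLog (v (xc (y i)))) ≤ Real.posLog (v (xc (y i₀))) :=
        ciInf_le (Set.finite_range _).bddBelow i₀
      change _ ≤ _ + (N : ℝ) * _ at h2
      linarith
  have hF0 : FS (fun v : AbsoluteValue K ℝ => ⨅ i, Real.posLog (v (xc (y i)))) := by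
    have hfin : (⋃ i : Fin m, Function.support fun v : nonarchAbsVal (K := K) =>
        Real.posLog (v.val (xc (y i)))).Finite :=
      Set.finite_iUnion fun i => FS_posLog (xc (y i))
    refine hfin.subset fun v hv => ?_
    by_contra hc
    simp only [Set.mem_iUnion, Function.mem_support, not_exists, not_not] at hc
    refine hv ?_
    simp only [hc]
    exact ciInf_const
  have hF1 : FS (fun v : AbsoluteValue K ℝ => Real.log (cst v C)) := FS_log_cst C
  have hF2 : FS (fun v : AbsoluteValue K ℝ => (n : ℝ) * Real.log (bet W v)) :=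
    (FS_log_bet W).const_mul _
  have hF3 := FS_posLog (K := K) (xc (∑ i, k i • y i))
  have hF12 : FS (fun v : AbsoluteValue K ℝ => (N : ℝ) * (Real.log (cst v C) +
    n * Real.log (bet W v))) := (hF1.add hF2).const_mul _
  have h := PS_mono hF0 (hF12.add hF3) hloc
  rw [PS_add hF12 hF3, PS_const_mul, PS_add hF1 hF2, PS_const_mul, PS_posLog] at h
  have h4 := PS_log_cst (K := K) hC
  change PS _ / 2 ≤ logHeight₁ _ / 2 + _
  have h5 : (N : ℝ) * PS (fun v : AbsoluteValue K ℝ => Real.log (cst v C)) ≤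
      N * (totalWeight K * Real.log C) := by
    exact mul_le_mul_of_nonneg_left (by linarith) (Nat.cast_nonneg _)
  linarith

end

end Pool.Agent.Helper12.RR
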