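import Pool.Agent.Helper12.RR.PG
import Pool.Agent.Helper12.RR.Loc
import Pool.Agent.Helper29.BL.CAN
import Pool.Agent.Helper29.BL.PAR

/-!
# Project RR: the theorem
-/

set_option autoImplicit false

namespace Pool.Agent.Helper12.RR

open WeierstrassCurve Height Height.AdmissibleAbsValues Pool.Agent.Helper29.BL

noncomputable section

theorem can : CAN := can_of (par_of add dbl xeq)

/-- dependence from the rank -/
theorem dep {G : Type} [AddCommGroup G] {r m : ℕ} (Γ : AddSubgroup G)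
    (hΓ : Module.rank ℤ Γ ≤ r) (x : Fin m → G) (hx : ∀ i, x i ∈ Γ) (t : Finset (Fin m))
    (ht : t.card = r + 1) :
    ∃ a : Fin m → ℤ, (∃ i ∈ t, a i ≠ 0) ∧ ∑ i ∈ t, a i • x i = 0 := by
  classical
  let f : t → Γ := fun i => ⟨x i, hx i⟩
  have hf : ¬ LinearIndependent ℤ f := by
    intro h
    have h1 := h.cardinal_le_rank
    rw [Cardinal.mk_coe_finset, ht] at h1
    have h2 := h1.trans hΓ
    have h3 : r + 1 ≤ r := by exact_mod_cast h2
    omega
  rw [Fintype.not_linearIndependent_iff] at hf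
  obtain ⟨g, hg, ⟨i, hi⟩, hgi⟩ := hf
  refine ⟨fun i => if h : i ∈ t then g ⟨i, h⟩ else 0, ⟨i, hi, by simpa [hi] using hgi⟩, ?_⟩
  have h1 := congrArg (fun u : Γ => (u : G)) hg
  simp only [AddSubgroup.val_finsetSum, AddSubgroup.coe_zsmul, ZeroMemClass.coe_zero] at h1
  rw [← h1, ← Finset.sum_coe_sort]
  refine Finset.sum_congr rfl fun j _ => ?_
  dsimp only
  rw [dif_pos j.2]

theorem quad_sum_le {G : Type} [AddCommGroup G] {H : G → ℝ} (h : IsQuad H) {ι : Type}
    (s : Finset ι) (f : ι → G) : H (∑ i ∈ s, f i) ≤ s.card * ∑ i ∈ s, H (f i) := by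
  classical
  have h1 : √(H (∑ i ∈ s, f i)) ≤ ∑ i ∈ s, √(H (f i)) := by
    induction s using Finset.induction_on with
    | empty => simp [h.zero]
    | insert a s ha ih =>
      rw [Finset.sum_insert ha, Finset.sum_insert ha]
      exact (h.triangle _ _).trans (by linarith)
  have h2 : H (∑ i ∈ s, f i) = √(H (∑ i ∈ s, f i)) ^ 2 := (Real.sq_sqrt (h.nonneg _)).symm
  rw [h2]
  refine (pow_le_pow_left₀ (Real.sqrt_nonneg _) h1 2).trans ?_
  refine sq_sum_le_card_mul_sum_sq.trans (le_of_eq ?_)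
  congr 1
  exact Finset.sum_congr rfl fun i _ => Real.sq_sqrt (h.nonneg _)

theorem ne_zero_of {G : Type} [AddCommGroup G] {m M : ℕ} (hM : 1 ≤ M) (y : Fin m → G)
    (hk : ∀ k : Fin m → ℤ, k ≠ 0 → (∀ i, |k i| ≤ M) → ∑ i, k i • y i ≠ 0) (i : Fin m) :
    y i ≠ 0 := by
  have h1 := hk (Pi.single i 1) (by
    intro h
    have := congrFun h i
    simp at this) (fun j => by
    rcases eq_or_ne j i with rfl | hj
    · rw [Pi.single_eq_same, abs_one]
      exact_mod_cast hM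
    · rw [Pi.single_eq_of_ne hj, abs_zero]
      exact Nat.cast_nonneg _)
  rw [Finset.sum_eq_single i] at h1
  · simpa using h1
  · intro j _ hj
    rw [Pi.single_eq_of_ne hj, zero_smul]
  · simp

/-- One centre. -/
theorem main1 (K : Type) [Field K] [NumberField K] [DecidableEq K] (W : Affine K) [W.IsElliptic]
    (m n r : ℕ) (hr : r < m) (A : Matrix (Fin m) (Fin n) ℤ) (s : Fin m → W.Point) (ε : ℝ)
    (hε : 0 < ε) : ∃ (M : ℕ) (C : ℝ), 0 ≤ C ∧ ∀ z : Fin n → W.Point,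
    Module.rank ℤ (AddSubgroup.closure (Set.range z)) ≤ r →
    (∀ k : Fin m → ℤ, k ≠ 0 → (∀ i, |k i| ≤ M) → ∑ i, k i • lin A s z i ≠ 0) →
    exc (lin A s z) ≤ ε * ∑ l, hx (z l) + C := by
  classical
  obtain ⟨H, c₀, hH⟩ := can K W
  have hc₀ : 0 ≤ c₀ := (abs_nonneg _).trans (hH.near 0)
  let a : ℝ := n * ∑ i, ∑ l, ((A i l : ℤ) : ℝ) ^ 2 + 1
  have ha : 0 < a := by positivity
  obtain ⟨M, hM⟩ := pg r m (ε / a) hr (by positivity)
  have hm : 0 < m := by omega
  choose Ck hCk using fun k : Fin m → ℤ => exc_le K W m hm k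
  let S : Finset (Fin m → ℤ) := Fintype.piFinset fun _ => Finset.Icc (-(M : ℤ)) M
  let C : ℝ := ∑ k ∈ S, (|Ck k| + H (∑ i, k i • s i)) + ε * (n * c₀) + c₀ / 2
  have hterm : ∀ k ∈ S, 0 ≤ |Ck k| + H (∑ i, k i • s i) := fun k _ =>
    add_nonneg (abs_nonneg _) (hH.quad.nonneg _)
  refine ⟨max M 1, C, by positivity [Finset.sum_nonneg hterm], fun z hz hk => ?_⟩
  have hy : ∀ i, lin A s z i ≠ 0 := fun i => ne_zero_of (le_max_right _ _) _ hk i
  let x : Fin m → W.Point := fun i => ∑ l, A i l • z l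
  have hxH : ∀ i, H (x i) ≤ a * ∑ l, H (z l) := by
    intro i
    have h1 := quad_sum_le hH.quad Finset.univ (fun l => A i l • z l)
    rw [Finset.card_univ, Fintype.card_fin] at h1
    refine h1.trans ?_
    have h2 : ∑ l, H (A i l • z l) ≤ (∑ i, ∑ l, ((A i l : ℤ) : ℝ) ^ 2) * ∑ l, H (z l) := by
      have h3 : ∀ l, H (A i l • z l) ≤ (∑ i, ∑ l, ((A i l : ℤ) : ℝ) ^ 2) * H (z l) := by
        intro l
        rw [hH.quad.zsmul]
        refine mul_le_mul_of_nonneg_right ?_ (hH.quad.nonneg _)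
        have h4 : ((A i l : ℤ) : ℝ) ^ 2 ≤ ∑ l, ((A i l : ℤ) : ℝ) ^ 2 :=
          Finset.single_le_sum (f := fun l => ((A i l : ℤ) : ℝ) ^ 2) (fun _ _ => sq_nonneg _)
            (Finset.mem_univ l)
        have h5 : ∑ l, ((A i l : ℤ) : ℝ) ^ 2 ≤ ∑ i, ∑ l, ((A i l : ℤ) : ℝ) ^ 2 :=
          Finset.single_le_sum (f := fun i => ∑ l, ((A i l : ℤ) : ℝ) ^ 2)
            (fun _ _ => Finset.sum_nonneg fun _ _ => sq_nonneg _) (Finset.mem_univ i)
        exact h4.trans h5
      rw [Finset.mul_sum]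
      exact Finset.sum_le_sum fun l _ => h3 l
    have h6 : 0 ≤ ∑ l, H (z l) := Finset.sum_nonneg fun l _ => hH.quad.nonneg _
    have h7 := mul_le_mul_of_nonneg_left h2 (Nat.cast_nonneg (α := ℝ) n)
    change _ ≤ (n * ∑ i, ∑ l, ((A i l : ℤ) : ℝ) ^ 2 + 1) * ∑ l, H (z l)
    linarith
  obtain ⟨k, ⟨i₀, -, hki₀⟩, hkM, hkx⟩ := hM W.Point H hH.quad (Fin m) Finset.univ (by simp) x
    (a * ∑ l, H (z l)) (fun i _ => hxH i) (by
      intro t _ ht
      obtain ⟨b, hb, hb0⟩ := dep (AddSubgroup.closure (Set.range z)) hz x (fun i => by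
        refine AddSubgroup.sum_mem _ fun l _ => AddSubgroup.zsmul_mem _ ?_ _
        exact AddSubgroup.subset_closure (Set.mem_range_self l)) t ht
      exact ⟨b, hb, by rw [hb0, hH.quad.zero]⟩)
  have hk0 : k ≠ 0 := fun h => hki₀ (by rw [h]; rfl)
  have hne := hk k hk0 (fun i => (hkM i).trans (by push_cast; exact le_max_left _ _))
  have h1 := hCk k (lin A s z) hy hne
  have hkS : k ∈ S := by
    rw [Fintype.mem_piFinset]
    intro i
    rw [Finset.mem_Icc]
    exact abs_le.1 (hkM i)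
  have h2 : |Ck k| + H (∑ i, k i • s i) ≤ ∑ k ∈ S, (|Ck k| + H (∑ i, k i • s i)) :=
    Finset.single_le_sum (f := fun k => |Ck k| + H (∑ i, k i • s i)) hterm hkS
  have h3 : ∑ i, k i • lin A s z i = ∑ i, k i • x i - ∑ i, k i • s i := by
    rw [← Finset.sum_sub_distrib]
    exact Finset.sum_congr rfl fun i _ => smul_sub _ _ _
  have h4 : H (∑ i, k i • lin A s z i) ≤ 2 * H (∑ i, k i • x i) + 2 * H (∑ i, k i • s i) := by
    rw [h3]
    have h5 := hH.quad.par (∑ i, k i • x i) (∑ i, k i • s i)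
    have h6 := hH.quad.nonneg (∑ i, k i • x i + ∑ i, k i • s i)
    linarith
  have h7 := abs_le.1 (hH.near (∑ i, k i • lin A s z i))
  have h8 : ∑ l, H (z l) ≤ ∑ l, hx (z l) + n * c₀ := by
    have h9 : ∀ l, H (z l) ≤ hx (z l) + c₀ := fun l => by
      have := abs_le.1 (hH.near (z l))
      linarith
    refine (Finset.sum_le_sum fun l _ => h9 l).trans ?_
    rw [Finset.sum_add_distrib]
    simp
  have h10 : ε / a * (a * ∑ l, H (z l)) = ε * ∑ l, H (z l) := by
    field_simp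
  rw [h10] at hkx
  have h11 := mul_le_mul_of_nonneg_left h8 hε.le
  have h12 := le_abs_self (Ck k)
  change _ ≤ _ + (∑ k ∈ S, (|Ck k| + H (∑ i, k i • s i)) + ε * (n * c₀) + c₀ / 2)
  linarith

lemma exc_nonneg {K : Type} [Field K] [NumberField K] {m : ℕ} {W : Affine K}
    (y : Fin m → W.Point) : 0 ≤ exc y := by
  have hF0 : FS (fun v : AbsoluteValue K ℝ => ⨅ i, Real.posLog (v (xc (y i)))) := by
    have hfin : (⋃ i : Fin m, Function.support fun v : nonarchAbsVal (K := K) =>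
        Real.posLog (v.val (xc (y i)))).Finite :=
      Set.finite_iUnion fun i => FS_posLog (xc (y i))
    refine hfin.subset fun v hv => ?_
    by_contra hc
    simp only [Set.mem_iUnion, Function.mem_support, not_exists, not_not] at hc
    refine hv ?_
    simp only [hc]
    rcases Nat.eq_zero_or_pos m with rfl | hm
    · exact Real.iInf_of_isEmpty _
    · have : Nonempty (Fin m) := ⟨⟨0, hm⟩⟩
      exact ciInf_const
  exact div_nonneg (PS_nonneg hF0 fun v => Real.iInf_nonneg fun i => Real.posLog_nonneg) (by norm_num)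

theorem rr : G_RR := by
  intro K _ _ _ T _ W _ n r ι _ τ m hm A s c₀ C₀ δ hc₀ hδ
  classical
  let N : ℝ := Fintype.card ι
  have hN : 0 ≤ N := Nat.cast_nonneg _
  let ε : ℝ := δ * c₀ / (|C₀| * N + 1)
  have hε : 0 < ε := by positivity
  choose M C hC hMC using fun j => main1 K (W (τ j)) (m j) (n (τ j)) (r (τ j)) (hm j) (A j) (s j) ε hε
  refine ⟨Finset.univ.sup M + 1, |C₀| * ∑ j, C j + |C₀| + δ * |C₀|, ?_⟩
  intro X z hK hN' hH hcan hcount hbig x hrank hout
  have hbase : 0 ≤ ∑ t, ∑ i, hx (z x t i) :=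
    Finset.sum_nonneg fun t _ => Finset.sum_nonneg fun i _ => hx_nonneg _
  have hj : ∀ j, exc (lin (A j) (s j) (z x (τ j))) ≤ ε * ∑ t, ∑ i, hx (z x t i) + C j := by
    intro j
    refine (hMC j (z x (τ j)) (hrank (τ j)) (fun k hk hkM => hout j k hk fun i => ?_)).trans ?_
    · refine (hkM i).trans ?_
      have h1 : M j ≤ Finset.univ.sup M := Finset.le_sup (f := M) (Finset.mem_univ j)
      exact_mod_cast h1.trans (Nat.le_succ _)
    · have h1 : ∑ i, hx (z x (τ j) i) ≤ ∑ t, ∑ i, hx (z x t i) :=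
        Finset.single_le_sum (f := fun t => ∑ i, hx (z x t i))
          (fun t _ => Finset.sum_nonneg fun i _ => hx_nonneg _) (Finset.mem_univ (τ j))
      have h2 := mul_le_mul_of_nonneg_left h1 hε.le
      linarith
  have hcan' := hcan x (fun j i => ne_zero_of (Nat.succ_le_succ (Nat.zero_le _)) _ (hout j) i)
  have hsum : ∑ j, exc (lin (A j) (s j) (z x (τ j))) ≤
      N * (ε * ∑ t, ∑ i, hx (z x t i)) + ∑ j, C j := by
    refine (Finset.sum_le_sum fun j _ => hj j).trans ?_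
    rw [Finset.sum_add_distrib, Finset.sum_const, nsmul_eq_mul, Finset.card_univ]
  have hexc0 : 0 ≤ ∑ j, exc (lin (A j) (s j) (z x (τ j))) :=
    Finset.sum_nonneg fun j _ => exc_nonneg _
  have h1 : C₀ * ∑ j, exc (lin (A j) (s j) (z x (τ j))) ≤
      |C₀| * (N * (ε * ∑ t, ∑ i, hx (z x t i)) + ∑ j, C j) :=
    (mul_le_mul_of_nonneg_right (le_abs_self C₀) hexc0).trans
      (mul_le_mul_of_nonneg_left hsum (abs_nonneg _))
  have h2 : |C₀| * (N * (ε * ∑ t, ∑ i, hx (z x t i))) ≤ δ * c₀ * ∑ t, ∑ i, hx (z x t i) := by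
    have h3 : |C₀| * N * ε ≤ δ * c₀ := by
      change |C₀| * N * (δ * c₀ / (|C₀| * N + 1)) ≤ δ * c₀
      have h4 : 0 ≤ |C₀| * N := by positivity
      rw [← mul_div_assoc, div_le_iff₀ (by positivity)]
      nlinarith [mul_pos hδ hc₀]
    have h5 := mul_le_mul_of_nonneg_right h3 hbase
    linarith
  have h6 := mul_le_mul_of_nonneg_left (hbig x) hδ.le
  have h7 := hcount x
  have h8 := le_abs_self C₀
  have h9 := mul_le_mul_of_nonneg_left h8 hδ.le
  linarith

end

end Pool.Agent.Helper12.RR
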