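import Pool.Agent.Helper29.BL.QSN

/-!
# Project RR: small integer combinations (pigeonhole in arbitrary rank)
-/

set_option autoImplicit false

namespace Pool.Agent.Helper12.RR

open Pool.Agent.Helper29.BL

noncomputable section

variable {G : Type} [AddCommGroup G] {H : G → ℝ}

/-- the square of the distance of `x` from the line spanned by `y₀` -/
def prj (H : G → ℝ) (y₀ x : G) : ℝ := H x - polar' H x y₀ ^ 2 / (4 * H y₀)

lemma pol_zsmul (h : IsQuad H) (k : ℤ) (x y : G) : polar' H (k • x) y = k * polar' H x y := by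
  have := h.polar_zsmul k 1 x y
  simpa using this

lemma pol_neg (h : IsQuad H) (x y : G) : polar' H (-x) y = -polar' H x y := by
  have := pol_zsmul h (-1) x y
  simpa using this

lemma pol_sub (h : IsQuad H) (x y z : G) : polar' H (x - y) z = polar' H x z - polar' H y z := by
  rw [sub_eq_add_neg, h.polar_add, pol_neg h, sub_eq_add_neg]

lemma prj_quad (h : IsQuad H) {y₀ : G} (h0 : 0 < H y₀) : IsQuad (prj H y₀) := by
  refine ⟨fun x => ?_, fun x y => ?_⟩
  · unfold prj
    rw [sub_nonneg, div_le_iff₀ (by positivity)]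
    have := h.cauchy x y₀
    linarith
  · unfold prj
    rw [h.polar_add, pol_sub h]
    have h1 := h.par x y
    have h2 : ∀ a b : ℝ, (a + b) ^ 2 / (4 * H y₀) + (a - b) ^ 2 / (4 * H y₀) =
        2 * (a ^ 2 / (4 * H y₀)) + 2 * (b ^ 2 / (4 * H y₀)) := by
      intro a b
      field_simp
      ring
    have h3 := h2 (polar' H x y₀) (polar' H y y₀)
    linarith

lemma prj_le {y₀ : G} (h0 : 0 ≤ H y₀) (x : G) : prj H y₀ x ≤ H x := by
  unfold prj
  have : 0 ≤ polar' H x y₀ ^ 2 / (4 * H y₀) := by positivity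
  linarith

lemma add_null {Q : G → ℝ} (h : IsQuad Q) {b : G} (hb : Q b = 0) (a : G) : Q (a + b) = Q a := by
  have h1 := h.cauchy a b
  rw [hb, mul_zero] at h1
  have h2 : polar' Q a b = 0 := by nlinarith
  have h3 : polar' Q a b = Q (a + b) - Q a - Q b := rfl
  linarith

lemma prj_self (h : IsQuad H) {y₀ : G} (h0 : 0 < H y₀) : prj H y₀ y₀ = 0 := by
  unfold prj
  rw [h.polar_self]
  field_simp
  ring

lemma prj_zsmul (h : IsQuad H) {y₀ : G} (h0 : 0 < H y₀) (k : ℤ) : prj H y₀ (k • y₀) = 0 := by
  rw [(prj_quad h h0).zsmul, prj_self h h0, mul_zero]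

lemma pol_sum (h : IsQuad H) {ι : Type} (s : Finset ι) (f : ι → G) (z : G) :
    polar' H (∑ i ∈ s, f i) z = ∑ i ∈ s, polar' H (f i) z := by
  change (h.polarHom z) (∑ i ∈ s, f i) = ∑ i ∈ s, (h.polarHom z) (f i)
  exact map_sum _ _ _

/-- the combination of the multiple `q x` with a multiple of `y₀` -/
lemma split_bound (h : IsQuad H) {y₀ : G} (h0 : 0 < H y₀) (x : G) (q a : ℤ) :
    H (q • x + (-a) • y₀) = (q : ℝ) ^ 2 * prj H y₀ x +
      ((q : ℝ) * (polar' H x y₀ / (2 * H y₀)) - a) ^ 2 * H y₀ := by
  have h1 : H (q • x + (-a) • y₀) = prj H y₀ (q • x + (-a) • y₀) +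
      polar' H (q • x + (-a) • y₀) y₀ ^ 2 / (4 * H y₀) := by
    unfold prj
    ring
  rw [h1, add_null (prj_quad h h0) (prj_zsmul h h0 _), (prj_quad h h0).zsmul, h.polar_add,
    pol_zsmul h, pol_zsmul h, h.polar_self]
  push_cast
  field_simp
  ring

theorem pg (r : ℕ) : ∀ (c : ℕ) (ε : ℝ), r < c → 0 < ε → ∃ M : ℕ,
    ∀ (G : Type) [AddCommGroup G] (H : G → ℝ), IsQuad H → ∀ (ι : Type) [DecidableEq ι]
    (s : Finset ι), s.card = c → ∀ (y : ι → G) (B : ℝ), (∀ i ∈ s, H (y i) ≤ B) →
    (∀ t ⊆ s, t.card = r + 1 → ∃ a : ι → ℤ, (∃ i ∈ t, a i ≠ 0) ∧ H (∑ i ∈ t, a i • y i) = 0) →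
    ∃ k : ι → ℤ, (∃ i ∈ s, k i ≠ 0) ∧ (∀ i, |k i| ≤ M) ∧ H (∑ i ∈ s, k i • y i) ≤ ε * B := by
  induction r with
  | zero =>
    intro c ε hc hε
    refine ⟨1, ?_⟩
    intro G _ H hH ι _ s hs y B hB hdep
    obtain ⟨i, hi⟩ : s.Nonempty := by rw [← Finset.card_pos]; omega
    obtain ⟨a, ⟨j, hj, haj⟩, ha⟩ := hdep {i} (Finset.singleton_subset_iff.2 hi) (by simp)
    rw [Finset.mem_singleton] at hj
    subst hj
    rw [Finset.sum_singleton, hH.zsmul] at ha
    have ha2 : (0 : ℝ) < (a j : ℝ) ^ 2 := by
      have : (a j : ℝ) ≠ 0 := by exact_mod_cast haj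
      positivity
    have h0 : H (y j) = 0 := by
      rcases mul_eq_zero.1 ha with h | h
      · exact absurd h ha2.ne'
      · exact h
    have hB0 : 0 ≤ B := (hH.nonneg _).trans (hB j hi)
    refine ⟨fun i => if i = j then 1 else 0, ⟨j, hi, by simp⟩, fun i => ?_, ?_⟩
    · dsimp only
      split_ifs <;> simp
    · have h1 : ∑ i ∈ s, (if i = j then (1 : ℤ) else 0) • y i = y j := by
        simp [ite_smul, hi]
      rw [h1, h0]
      positivity
  | succ r ih =>
    intro c ε hc hε
    obtain ⟨L, hL⟩ := exists_nat_gt (2 / ε)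
    have hLpos : (0 : ℝ) < L := lt_trans (by positivity) hL
    have hL1 : 0 < L := by exact_mod_cast hLpos
    have hε' : 0 < ε / (2 * (L : ℝ) ^ 2) := by positivity
    obtain ⟨M, hM⟩ := ih (c - 1) (ε / (2 * (L : ℝ) ^ 2)) (by omega) hε'
    refine ⟨L * (c * M) + L * M + 1, ?_⟩
    intro G _ H hH ι _ s hs y B hB hdep
    have hsne : s.Nonempty := by rw [← Finset.card_pos]; omega
    obtain ⟨i₀, hi₀, hmax⟩ := Finset.exists_max_image s (fun i => H (y i)) hsne
    have hB0 : 0 ≤ B := (hH.nonneg _).trans (hB i₀ hi₀)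
    rcases (hH.nonneg (y i₀)).lt_or_eq with h0 | h0
    swap
    · refine ⟨fun i => if i = i₀ then 1 else 0, ⟨i₀, hi₀, by simp⟩, fun i => ?_, ?_⟩
      · dsimp only
        have : (0 : ℤ) ≤ ((L * (c * M) + L * M : ℕ) : ℤ) := by positivity
        split_ifs
        · push_cast at this ⊢
          rw [abs_one]
          linarith
        · push_cast at this ⊢
          rw [abs_zero]
          linarith
      · have h1 : ∑ i ∈ s, (if i = i₀ then (1 : ℤ) else 0) • y i = y i₀ := by
          simp [ite_smul, hi₀]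
        rw [h1, ← h0]
        positivity
    · have hq := prj_quad hH h0
      obtain ⟨κ, ⟨j, hj, hκj⟩, hκM, hκ⟩ := hM G (prj H (y i₀)) hq ι (s.erase i₀)
        (by rw [Finset.card_erase_of_mem hi₀, hs]) y (H (y i₀))
        (fun i hi => (prj_le h0.le _).trans (hmax i (Finset.mem_of_mem_erase hi))) (by
          intro t ht htc
          have hi₀t : i₀ ∉ t := fun h => by
            have := ht h
            simp at this
          obtain ⟨a, ⟨l, hl, hal⟩, ha⟩ := hdep (insert i₀ t) (by
            rw [Finset.insert_subset_iff]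
            exact ⟨hi₀, ht.trans (Finset.erase_subset _ _)⟩) (by
            rw [Finset.card_insert_of_notMem hi₀t, htc])
          rw [Finset.sum_insert hi₀t] at ha
          refine ⟨a, ?_, ?_⟩
          · by_contra hcon
            push Not at hcon
            have h1 : ∑ i ∈ t, a i • y i = 0 :=
              Finset.sum_eq_zero fun i hi => by rw [hcon i hi, zero_smul]
            rw [h1, add_zero, hH.zsmul] at ha
            have h2 : a i₀ ≠ 0 := by
              rcases Finset.mem_insert.1 hl with h | h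
              · rwa [h] at hal
              · exact absurd (hcon l h) hal
            have h3 : (0 : ℝ) < (a i₀ : ℝ) ^ 2 := by
              have : (a i₀ : ℝ) ≠ 0 := by exact_mod_cast h2
              positivity
            have := mul_pos h3 h0
            linarith
          · have h1 : prj H (y i₀) (a i₀ • y i₀ + ∑ i ∈ t, a i • y i) =
                prj H (y i₀) (∑ i ∈ t, a i • y i) := by
              rw [add_comm, add_null hq (prj_zsmul hH h0 _)]
            have h2 := prj_le (H := H) h0.le (a i₀ • y i₀ + ∑ i ∈ t, a i • y i)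
            rw [ha, h1] at h2
            exact le_antisymm h2 (hq.nonneg _))
      have hji : j ≠ i₀ := fun h => by
        rw [h] at hj
        simp at hj
      have hjs : j ∈ s := Finset.mem_of_mem_erase hj
      let x : G := ∑ i ∈ s.erase i₀, κ i • y i
      let ξ : ℝ := polar' H x (y i₀) / (2 * H (y i₀))
      obtain ⟨q, hq0, hqL, hqξ⟩ := Real.exists_nat_abs_mul_sub_round_le ξ hL1
      let a : ℤ := round ((q : ℝ) * ξ)
      have hξ : |ξ| ≤ c * M := by
        have h1 : |polar' H x (y i₀)| ≤ (c * M : ℝ) * (2 * H (y i₀)) := by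
          change |polar' H (∑ i ∈ s.erase i₀, κ i • y i) (y i₀)| ≤ _
          rw [pol_sum hH]
          refine (Finset.abs_sum_le_sum_abs _ _).trans ?_
          have h2 : ∀ i ∈ s.erase i₀, |polar' H (κ i • y i) (y i₀)| ≤ (M : ℝ) * (2 * H (y i₀)) := by
            intro i hi
            rw [pol_zsmul hH, abs_mul]
            have h3 : |((κ i : ℤ) : ℝ)| ≤ M := by exact_mod_cast hκM i
            have h4 : |polar' H (y i) (y i₀)| ≤ 2 * H (y i₀) := by
              have h5 := hH.cauchy (y i) (y i₀)
              have h6 := hmax i (Finset.mem_of_mem_erase hi)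
              have h7 := hH.nonneg (y i)
              refine abs_le_of_sq_le_sq (h5.trans ?_) (by positivity)
              nlinarith
            exact mul_le_mul h3 h4 (abs_nonneg _) (Nat.cast_nonneg _)
          refine (Finset.sum_le_sum h2).trans ?_
          rw [Finset.sum_const, nsmul_eq_mul]
          have h8 : ((s.erase i₀).card : ℝ) ≤ c := by
            rw [← hs]
            exact_mod_cast Finset.card_le_card (Finset.erase_subset _ _)
          have h9 : (0 : ℝ) ≤ (M : ℝ) * (2 * H (y i₀)) := by positivity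
          nlinarith
        change |polar' H x (y i₀) / (2 * H (y i₀))| ≤ _
        rw [abs_div, abs_of_pos (show (0 : ℝ) < 2 * H (y i₀) by positivity),
          div_le_iff₀ (by positivity)]
        exact h1
      have hqLr : (q : ℝ) ≤ L := by exact_mod_cast hqL
      have hq0r : (0 : ℝ) ≤ q := Nat.cast_nonneg _
      refine ⟨fun i => if i = i₀ then -a else q * κ i, ⟨j, hjs, ?_⟩, fun i => ?_, ?_⟩
      · dsimp only
        rw [if_neg hji]
        exact mul_ne_zero (by exact_mod_cast hq0.ne') hκj
      · dsimp only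
        split_ifs
        · rw [abs_neg]
          have h1 : |(a : ℝ)| ≤ L * (c * M) + L * M + 1 := by
            have h2 : |(a : ℝ)| ≤ |(q : ℝ) * ξ| + |(q : ℝ) * ξ - a| := by
              have h3 : (a : ℝ) = (q : ℝ) * ξ - ((q : ℝ) * ξ - a) := by ring
              calc |(a : ℝ)| = |(q : ℝ) * ξ - ((q : ℝ) * ξ - a)| := by rw [← h3]
                _ ≤ _ := abs_sub _ _
            have h4 : |(q : ℝ) * ξ| ≤ L * (c * M) := by
              rw [abs_mul, abs_of_nonneg hq0r]
              exact mul_le_mul hqLr hξ (abs_nonneg _) hLpos.le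
            have h5 : (1 : ℝ) / (L + 1) ≤ 1 := by
              rw [div_le_one (by positivity)]
              linarith
            have h6 : (0 : ℝ) ≤ (L : ℝ) * M := by positivity
            change |(q : ℝ) * ξ - a| ≤ _ at hqξ
            linarith
          exact_mod_cast h1
        · rw [abs_mul, Nat.abs_cast]
          have h1 : (q : ℤ) * |κ i| ≤ L * M := by
            have h2 : (q : ℤ) ≤ L := by exact_mod_cast hqL
            exact mul_le_mul h2 (hκM i) (abs_nonneg _) (by positivity)
          have h3 : (0 : ℤ) ≤ (L : ℤ) * (c * M) := by positivity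
          push_cast
          linarith
      · have h1 : ∑ i ∈ s, (if i = i₀ then -a else (q : ℤ) * κ i) • y i =
            (q : ℤ) • x + (-a) • y i₀ := by
          rw [← Finset.add_sum_erase s _ hi₀, if_pos rfl, add_comm]
          congr 1
          change _ = (q : ℤ) • ∑ i ∈ s.erase i₀, κ i • y i
          rw [Finset.smul_sum]
          refine Finset.sum_congr rfl fun i hi => ?_
          rw [if_neg (Finset.ne_of_mem_erase hi), mul_smul]
        rw [h1, split_bound hH h0]
        have h2 : ((q : ℤ) : ℝ) ^ 2 * prj H (y i₀) x ≤ ε / 2 * H (y i₀) := by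
          have h3 : ((q : ℤ) : ℝ) ^ 2 ≤ (L : ℝ) ^ 2 := by
            push_cast
            exact pow_le_pow_left₀ hq0r hqLr 2
          have h4 : ((q : ℤ) : ℝ) ^ 2 * prj H (y i₀) x ≤
              (L : ℝ) ^ 2 * (ε / (2 * (L : ℝ) ^ 2) * H (y i₀)) :=
            mul_le_mul h3 hκ (hq.nonneg _) (by positivity)
          refine h4.trans (le_of_eq ?_)
          field_simp
        have h5 : (((q : ℤ) : ℝ) * (polar' H x (y i₀) / (2 * H (y i₀))) - a) ^ 2 ≤ ε / 2 := by
          change |(q : ℝ) * ξ - a| ≤ _ at hqξ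
          change (((q : ℤ) : ℝ) * ξ - a) ^ 2 ≤ ε / 2
          have h6 : (((q : ℤ) : ℝ) * ξ - a) ^ 2 ≤ (1 / ((L : ℝ) + 1)) ^ 2 := by
            rw [← sq_abs]
            push_cast
            exact pow_le_pow_left₀ (abs_nonneg _) hqξ 2
          have h7 : (1 / ((L : ℝ) + 1)) ^ 2 ≤ 1 / L := by
            rw [div_pow, one_pow]
            apply one_div_le_one_div_of_le hLpos
            nlinarith
          have h8 : 1 / (L : ℝ) ≤ ε / 2 := by
            rw [div_lt_iff₀ hε] at hL
            rw [div_le_iff₀ hLpos]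
            linarith
          linarith
        have h9 := mul_le_mul_of_nonneg_right h5 h0.le
        have h10 : ε * H (y i₀) ≤ ε * B := mul_le_mul_of_nonneg_left (hB i₀ hi₀) hε.le
        linarith

end

end Pool.Agent.Helper12.RR
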